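import Pool.Agent.H47.VT.Targets6

/-! SGD of vdeg_modules: the coefficients of the product of four L-functions are non-negative. -/

set_option autoImplicit false

open Finset ArithmeticFunction

namespace Pool.Agent.H65.VT.SGD

open Pool.Agent.H47.VT (rv)
open Pool.Agent.H30.BV (cv)

variable {q : ℕ}

theorem rv_apply (χ : DirichletCharacter ℂ q) {n : ℕ} (hn : n ≠ 0) :
    rv χ n = (χ (n : ZMod q)).re := by
  simp [rv, cv, hn]

theorem val (χ : DirichletCharacter ℂ q) (h : χ ^ 2 = 1) {n : ℕ} (hn : n ≠ 0) :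
    (rv χ n = 0 ∨ rv χ n = 1 ∨ rv χ n = -1) ∧ χ (n : ZMod q) = (rv χ n : ℂ) := by
  rw [rv_apply χ hn]
  rcases MulChar.isQuadratic_iff_sq_eq_one.mpr h (n : ZMod q) with h | h | h <;> rw [h] <;> simp

theorem rv_mul (χ : DirichletCharacter ℂ q) (h : χ ^ 2 = 1) {m n : ℕ} (hm : m ≠ 0) (hn : n ≠ 0) :
    rv χ (m * n) = rv χ m * rv χ n := by
  have h1 := (val χ h (mul_ne_zero hm hn)).2
  rw [Nat.cast_mul, map_mul, (val χ h hm).2, (val χ h hn).2] at h1
  exact_mod_cast h1.symm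

theorem rv_one (χ : DirichletCharacter ℂ q) : rv χ 1 = 1 := by
  rw [rv_apply χ one_ne_zero]
  simp

theorem rv_pow (χ : DirichletCharacter ℂ q) (h : χ ^ 2 = 1) {p : ℕ} (hp : p ≠ 0) (k : ℕ) :
    rv χ (p ^ k) = rv χ p ^ k := by
  induction k with
  | zero => simp [rv_one]
  | succ k ih => rw [pow_succ, rv_mul χ h (pow_ne_zero _ hp) hp, ih, pow_succ]

theorem rv_mult (χ : DirichletCharacter ℂ q) (h : χ ^ 2 = 1) : (rv χ).IsMultiplicative := by
  rw [IsMultiplicative.iff_ne_zero]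
  exact ⟨rv_one χ, fun {m n} hm hn _ => rv_mul χ h hm hn⟩

/-- the alternating sum -/
theorem alt (c : ℝ) (m : ℕ) : ∑ j ∈ range m, (-1 : ℝ) ^ j * ((j + 1) * (c - j)) =
    (c + 1) / 4 + (-1) ^ m * ((m : ℝ) ^ 2 / 2 - c * m / 2 - (c + 1) / 4) := by
  induction m with
  | zero => simp
  | succ m ih =>
    rw [sum_range_succ, ih, pow_succ]
    push_cast
    ring

theorem key (a b : ℝ) (ha : a = 0 ∨ a = 1 ∨ a = -1) (hb : b = 0 ∨ b = 1 ∨ b = -1) (k : ℕ) :
    0 ≤ ∑ j ∈ range (k + 1), (∑ l ∈ range (k - j + 1), a ^ l) * (b ^ j * ∑ l ∈ range (j + 1), a ^ l) := by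
  have hg : ∀ i : ℕ, 0 ≤ ∑ l ∈ range (i + 1), a ^ l := by
    intro i
    rcases ha with rfl | rfl | rfl
    · exact sum_nonneg fun l _ => pow_nonneg le_rfl _
    · exact sum_nonneg fun l _ => pow_nonneg zero_le_one _
    · rw [neg_one_geom_sum]
      split_ifs
      · exact le_rfl
      · exact zero_le_one
  rcases hb with rfl | rfl | rfl
  · exact sum_nonneg fun j _ => mul_nonneg (hg _) (mul_nonneg (pow_nonneg le_rfl _) (hg _))
  · exact sum_nonneg fun j _ => mul_nonneg (hg _) (mul_nonneg (pow_nonneg zero_le_one _) (hg _))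
  · rcases ha with rfl | rfl | rfl
    · have h1 : ∀ i : ℕ, ∑ l ∈ range (i + 1), (0 : ℝ) ^ l = 1 := by
        intro i
        rw [sum_range_succ']
        simp
      simp only [h1, one_mul, mul_one]
      rw [neg_one_geom_sum]
      split_ifs
      · exact le_rfl
      · exact zero_le_one
    · have h1 : ∑ j ∈ range (k + 1), (∑ l ∈ range (k - j + 1), (1 : ℝ) ^ l) *
          ((-1) ^ j * ∑ l ∈ range (j + 1), (1 : ℝ) ^ l) =
          ∑ j ∈ range (k + 1), (-1 : ℝ) ^ j * ((j + 1) * (((k : ℝ) + 1) - j)) := by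
        refine sum_congr rfl fun j hj => ?_
        have hj' : j ≤ k := Nat.lt_succ_iff.1 (mem_range.1 hj)
        simp only [one_pow, sum_const, card_range, nsmul_eq_mul, mul_one]
        rw [Nat.cast_add, Nat.cast_sub hj', Nat.cast_add, Nat.cast_one]
        ring
      rw [h1, alt]
      have h2 : (k : ℝ) + 1 = ((k + 1 : ℕ) : ℝ) := by push_cast; ring
      have hk : (0 : ℝ) ≤ k := Nat.cast_nonneg k
      rcases neg_one_pow_eq_or ℝ (k + 1) with h | h <;> rw [h, ← h2]
      · ring_nf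
        exact le_rfl
      · nlinarith
    · refine sum_nonneg fun j _ => mul_nonneg (hg _) ?_
      rw [neg_one_geom_sum]
      split_ifs with he
      · simp
      · have : Even j := by
          rcases Nat.even_or_odd j with h | h
          · exact h
          · exact absurd (h.add_odd odd_one) he
        rw [this.neg_one_pow]
        norm_num

theorem pf_SGD : Pool.Agent.H47.VT.T_SGD := by
  intro q₁ q₂ χ₁ χ₂ h₁ h₂ n
  set g : ArithmeticFunction ℝ := ((zeta : ArithmeticFunction ℕ) : ArithmeticFunction ℝ) * rv χ₁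
    with hg
  have e1 : rv χ₂ * (rv χ₁).pmul (rv χ₂) = (rv χ₂).pmul g := by
    ext n
    rw [mul_apply, pmul_apply, hg, mul_apply, mul_sum]
    refine sum_congr rfl fun x hx => ?_
    obtain ⟨hx1, hx2⟩ := Nat.mem_divisorsAntidiagonal.1 hx
    have h3 : x.1 ≠ 0 := fun h => hx2 (by rw [← hx1, h, zero_mul])
    have h4 : x.2 ≠ 0 := fun h => hx2 (by rw [← hx1, h, mul_zero])
    rw [pmul_apply, ← hx1, rv_mul χ₂ h₂ h3 h4, natCoe_apply, zeta_apply, if_neg h3]
    push_cast
    ring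
  rw [← mul_assoc, ← hg, e1]
  have hgm : g.IsMultiplicative := isMultiplicative_zeta.natCast.mul (rv_mult χ₁ h₁)
  have hF : (g * (rv χ₂).pmul g).IsMultiplicative :=
    hgm.mul ((rv_mult χ₂ h₂).pmul hgm)
  rcases eq_or_ne n 0 with rfl | hn
  · simp
  rw [hF.multiplicative_factorization _ hn]
  refine Finset.prod_nonneg fun p hp => ?_
  have hp' : p.Prime := Nat.prime_of_mem_primeFactors hp
  generalize n.factorization p = k
  have hgp : ∀ i : ℕ, g (p ^ i) = ∑ l ∈ range (i + 1), rv χ₁ p ^ l := by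
    intro i
    rw [hg, coe_zeta_mul_apply, Nat.sum_divisors_prime_pow hp']
    exact sum_congr rfl fun l _ => rv_pow χ₁ h₁ hp'.ne_zero l
  have e2 : (g * (rv χ₂).pmul g) (p ^ k) = ∑ j ∈ range (k + 1),
      (∑ l ∈ range (k - j + 1), rv χ₁ p ^ l) * (rv χ₂ p ^ j * ∑ l ∈ range (j + 1), rv χ₁ p ^ l) := by
    rw [mul_comm g, mul_apply, Nat.sum_divisorsAntidiagonal (fun i j => (rv χ₂).pmul g i * g j),
      Nat.sum_divisors_prime_pow hp']
    refine sum_congr rfl fun j hj => ?_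
    have hj' : j ≤ k := Nat.lt_succ_iff.1 (mem_range.1 hj)
    rw [Nat.pow_div hj' hp'.pos, pmul_apply, hgp, hgp, rv_pow χ₂ h₂ hp'.ne_zero, mul_comm]
  show 0 ≤ (g * (rv χ₂).pmul g) (p ^ k)
  rw [e2]
  exact key _ _ (val χ₁ h₁ hp'.ne_zero).1 (val χ₂ h₂ hp'.ne_zero).1 k

end Pool.Agent.H65.VT.SGD
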